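import Mathlib
import Pool.Agent.Lib.helper21.Queue
import Pool.Agent.Lib.helper21.RLG
import Pool.Agent.Lib.helper21.CPred

set_option autoImplicit false

/-!
Inclusion of a regular language in the shuffle of a regular and a DCM(1,1) language is
undecidable.
-/

namespace Pool.Agent.Results.MP_732884_lc.Undec

/-- `Sh u v w`: the word `w` is an interleaving of `u` and `v`. -/
inductive Sh {A : Type} : List A → List A → List A → Prop
  | nil : Sh [] [] []
  | left {u v w} (l) : Sh u v w → Sh (l :: u) v (l :: w)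
  | right {u v w} (l) : Sh u v w → Sh u (l :: v) (l :: w)

def shuffle {A : Type} (L₁ L₂ : Language A) : Language A := {w | ∃ u ∈ L₁, ∃ v ∈ L₂, Sh u v w}

/-- counter move: `none` keeps, `some true` increments, `some false` decrements -/
def adj : Option Bool → ℕ → ℕ
  | none, n => n
  | some true, n => n + 1
  | some false, n => n - 1

/-- A deterministic real-time one-counter machine; the transition sees the state, the letter and
whether the counter is zero; it never decrements a zero counter. -/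
structure DCM (A : Type) where
  Q : Type
  fin : Finite Q
  start : Q
  accept : Set Q
  δ : Q → A → Bool → Q × Option Bool
  nodec : ∀ q l, (δ q l true).2 ≠ some false

def DCM.move {A : Type} (M : DCM A) (c : M.Q × ℕ) (l : A) : M.Q × Option Bool :=
  M.δ c.1 l (decide (c.2 = 0))

def DCM.step {A : Type} (M : DCM A) (c : M.Q × ℕ) (l : A) : M.Q × ℕ :=
  ((M.move c l).1, adj (M.move c l).2 c.2)

def DCM.run {A : Type} (M : DCM A) (w : List A) : M.Q × ℕ := w.foldl M.step (M.start, 0)

def DCM.lang {A : Type} (M : DCM A) : Language A := {w | (M.run w).1 ∈ M.accept}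

/-- On every input, no increment happens after a decrement. -/
def DCM.OneReversal {A : Type} (M : DCM A) : Prop :=
  ∀ w₁ l w₂ l', (M.move (M.run w₁) l).2 = some false →
    (M.move (M.run (w₁ ++ l :: w₂)) l').2 ≠ some true

/-- Code of a finite automaton: transitions, initial state, final states. -/
abbrev Code (A : Type) : Type := List (ℕ × A × ℕ) × ℕ × List ℕ

inductive Path {A : Type} (T : List (ℕ × A × ℕ)) : ℕ → List A → ℕ → Prop
  | nil (p) : Path T p [] p
  | cons {p l q w f} : (p, l, q) ∈ T → Path T q w f → Path T p (l :: w) f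

def Code.lang {A : Type} (N : Code A) : Language A := {w | ∃ f ∈ N.2.2, Path N.1 N.2.1 w f}

/-! ### Shuffles -/

section
variable {A : Type}

lemma Sh.count [DecidableEq A] {u v w : List A} (h : Sh u v w) (l : A) :
    w.count l = u.count l + v.count l := by
  induction h with
  | nil => rfl
  | left _ _ ih => simp only [List.count_cons, ih]; omega
  | right _ _ ih => simp only [List.count_cons, ih]; omega

lemma Sh.mem {u v w : List A} (h : Sh u v w) (l : A) : l ∈ w ↔ l ∈ u ∨ l ∈ v := by
  induction h with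
  | nil => simp
  | left _ _ ih => simp only [List.mem_cons, ih]; tauto
  | right _ _ ih => simp only [List.mem_cons, ih]; tauto

lemma Sh.split {u v w : List A} (h : Sh u v w) : ∀ u₁ l u₂, u = u₁ ++ l :: u₂ →
    ∃ v₁ v₂ w₁ w₂, v = v₁ ++ v₂ ∧ w = w₁ ++ l :: w₂ ∧ Sh u₁ v₁ w₁ ∧ Sh u₂ v₂ w₂ := by
  induction h with
  | nil => intro u₁ l u₂ e; simp at e
  | @left u v w k h ih =>
    intro u₁ l u₂ e
    cases u₁ with
    | nil =>
      obtain ⟨rfl, rfl⟩ := List.cons.inj e
      exact ⟨[], v, [], w, rfl, rfl, .nil, h⟩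
    | cons k' u₁ =>
      obtain ⟨rfl, e'⟩ := List.cons.inj e
      obtain ⟨v₁, v₂, w₁, w₂, rfl, rfl, h1, h2⟩ := ih u₁ l u₂ e'
      exact ⟨v₁, v₂, k :: w₁, w₂, rfl, rfl, .left k h1, h2⟩
  | @right u v w k h ih =>
    intro u₁ l u₂ e
    obtain ⟨v₁, v₂, w₁, w₂, rfl, rfl, h1, h2⟩ := ih u₁ l u₂ e
    exact ⟨k :: v₁, v₂, k :: w₁, w₂, rfl, rfl, .right k h1, h2⟩

lemma Sh.append {u v w u' v' w' : List A} (h : Sh u v w) (h' : Sh u' v' w') :
    Sh (u ++ u') (v ++ v') (w ++ w') := by
  induction h with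
  | nil => exact h'
  | left l _ ih => exact .left l ih
  | right l _ ih => exact .right l ih

lemma Sh.refl (u : List A) : Sh u [] u := by
  induction u with
  | nil => exact .nil
  | cons l u ih => exact .left l ih

lemma Sh.filter (p : A → Bool) (w : List A) : Sh (w.filter fun l => !p l) (w.filter p) w := by
  induction w with
  | nil => exact .nil
  | cons l w ih =>
    cases h : p l
    · simpa [h] using Sh.left l ih
    · simpa [h] using Sh.right l ih

/-! ### Automaton codes -/

def push (l : A) (z : ℕ × ℕ × List (ℕ × A × ℕ)) : ℕ × ℕ × List (ℕ × A × ℕ) :=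
  (z.2.1, z.2.1 + 1, (z.2.1, l, z.1) :: z.2.2)

def Inv (F : List ℕ) (z : ℕ × ℕ × List (ℕ × A × ℕ)) : Prop :=
  z.1 < z.2.1 ∧ (∀ t ∈ z.2.2, t.1 < z.2.1 ∧ t.2.2 < z.2.1) ∧ ∀ f ∈ F, f < z.2.1

lemma Path.mono {T T' : List (ℕ × A × ℕ)} (hT : T ⊆ T') {p w f} (h : Path T p w f) :
    Path T' p w f := by
  induction h with
  | nil p => exact .nil p
  | cons h _ ih => exact .cons (hT h) ih

lemma Path.drop {T : List (ℕ × A × ℕ)} {c : ℕ} {l : A} {k : ℕ} (hT : ∀ t ∈ T, t.2.2 < c) {p w f}
    (h : Path ((c, l, k) :: T) p w f) (hp : p < c) : Path T p w f := by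
  induction h with
  | nil p => exact .nil p
  | cons h _ ih =>
    rcases List.mem_cons.1 h with e | h
    · cases e; exact absurd hp (lt_irrefl _)
    · exact .cons h (ih (hT _ h))

lemma push_spec {F : List ℕ} {z : ℕ × ℕ × List (ℕ × A × ℕ)} (h : Inv F z) (l : A) :
    Inv F (push l z) ∧ ∀ w, w ∈ Code.lang ((push l z).2.2, (push l z).1, F) ↔
      ∃ w' ∈ Code.lang (z.2.2, z.1, F), w = l :: w' := by
  obtain ⟨p, c, T⟩ := z
  obtain ⟨h1, h2, h3⟩ := h
  simp only at h1 h2 h3
  refine ⟨⟨Nat.lt_succ_self _, fun t ht => ?_, fun f hf => (h3 f hf).trans (Nat.lt_succ_self _)⟩,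
    fun w => ⟨?_, ?_⟩⟩
  · rcases List.mem_cons.1 ht with rfl | ht
    · exact ⟨Nat.lt_succ_self _, h1.trans (Nat.lt_succ_self _)⟩
    · exact ⟨(h2 t ht).1.trans (Nat.lt_succ_self _), (h2 t ht).2.trans (Nat.lt_succ_self _)⟩
  · rintro ⟨f, hf, hp⟩
    change Path ((c, l, p) :: T) c w f at hp
    cases hp with
    | nil => exact absurd (h3 _ hf) (lt_irrefl _)
    | cons h hp =>
      rcases List.mem_cons.1 h with e | h
      · cases e
        exact ⟨_, ⟨f, hf, hp.drop (fun t ht => (h2 t ht).2) h1⟩, rfl⟩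
      · exact absurd (h2 _ h).1 (lt_irrefl _)
  · rintro ⟨w', ⟨f, hf, hp⟩, rfl⟩
    exact ⟨f, hf, .cons List.mem_cons_self (hp.mono (List.subset_cons_self _ _))⟩

lemma build_spec {F : List ℕ} {z : ℕ × ℕ × List (ℕ × A × ℕ)} (h : Inv F z) (p : List A) :
    Inv F (p.foldr push z) ∧ ∀ w, w ∈ Code.lang ((p.foldr push z).2.2, (p.foldr push z).1, F) ↔
      ∃ w' ∈ Code.lang (z.2.2, z.1, F), w = p ++ w' := by
  induction p with
  | nil => exact ⟨h, fun w => by simp⟩
  | cons l p ih =>
    refine ⟨(push_spec ih.1 l).1, fun w => ?_⟩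
    rw [List.foldr_cons, (push_spec ih.1 l).2]
    constructor
    · rintro ⟨w', h, rfl⟩
      obtain ⟨w'', h', rfl⟩ := (ih.2 _).1 h
      exact ⟨w'', h', rfl⟩
    · rintro ⟨w', h, rfl⟩
      exact ⟨_, (ih.2 _).2 ⟨w', h, rfl⟩, rfl⟩

lemma exists_code [Finite A] {L : Language A} (h : L.IsRegular) :
    ∃ F z, Inv (A := A) F z ∧ Code.lang (z.2.2, z.1, F) = L := by
  classical
  obtain ⟨σ, _, M, rfl⟩ := h
  have := Fintype.ofFinite A
  let e : σ → ℕ := fun q => (Fintype.equivFin σ q).val
  have he : Function.Injective e := fun a b h => (Fintype.equivFin σ).injective (Fin.ext h)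
  have hl : ∀ q, e q < Fintype.card σ := fun q => (Fintype.equivFin σ q).2
  let T : List (ℕ × A × ℕ) := (Finset.univ : Finset (σ × A)).toList.map
    fun x => (e x.1, x.2, e (M.step x.1 x.2))
  have hT : ∀ t, t ∈ T ↔ ∃ q l, (e q, l, e (M.step q l)) = t := by simp [T]
  let F : List ℕ := ((Finset.univ : Finset σ).filter (· ∈ M.accept)).toList.map e
  have hF : ∀ f, f ∈ F ↔ ∃ q ∈ M.accept, e q = f := by simp [F]
  have h1 : ∀ w q, Path T (e q) w (e (M.evalFrom q w)) := by
    intro w
    induction w with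
    | nil => exact fun q => .nil _
    | cons l w ih => exact fun q => .cons ((hT _).2 ⟨q, l, rfl⟩) (ih _)
  have h2 : ∀ p w f, Path T p w f → ∀ q, p = e q → f = e (M.evalFrom q w) := by
    intro p w f h
    induction h with
    | nil p => exact fun q h => h
    | cons h _ ih =>
      rintro q rfl
      obtain ⟨q', l', e'⟩ := (hT _).1 h
      simp only [Prod.mk.injEq] at e'
      obtain ⟨a, rfl, b⟩ := e'
      obtain rfl := he a
      exact ih _ b.symm
  refine ⟨F, (e M.start, Fintype.card σ, T), ⟨hl _, fun t ht => ?_, fun f hf => ?_⟩, ?_⟩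
  · obtain ⟨q, l, rfl⟩ := (hT _).1 ht
    exact ⟨hl _, hl _⟩
  · obtain ⟨q, -, rfl⟩ := (hF _).1 hf
    exact hl _
  · ext w
    constructor
    · rintro ⟨f, hf, hp⟩
      obtain ⟨q, hq, rfl⟩ := (hF _).1 hf
      have := he (h2 _ _ _ hp M.start rfl)
      exact (DFA.mem_accepts _).2 (show M.evalFrom M.start w ∈ _ from this ▸ hq)
    · intro h
      exact ⟨_, (hF _).2 ⟨_, (DFA.mem_accepts _).1 h, rfl⟩, h1 w M.start⟩

lemma code_family [Finite A] [Primcodable A] {L : Language A} (h : L.IsRegular) {p : ℕ → List A}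
    (hp : Primrec p) : ∃ N : ℕ → Code A, Computable N ∧
      ∀ n w, w ∈ (N n).lang ↔ ∃ w' ∈ L, w = p n ++ w' := by
  obtain ⟨F, z, hz, rfl⟩ := exists_code h
  refine ⟨fun n => (((p n).foldr push z).2.2, ((p n).foldr push z).1, F), ?_,
    fun n => (build_spec hz (p n)).2⟩
  have h1 : Primrec fun n => (p n).foldr (fun l s => push l s) z := by
    refine Primrec.list_foldr (h := fun _ (x : A × ℕ × ℕ × List (ℕ × A × ℕ)) => push x.1 x.2) hp
      (Primrec.const z) ?_
    have a : Primrec fun y : ℕ × A × ℕ × ℕ × List (ℕ × A × ℕ) => y.2.2 :=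
      Primrec.snd.comp Primrec.snd
    have b := Primrec.fst.comp (Primrec.snd.comp a)
    exact (b.pair ((Primrec.succ.comp b).pair (Primrec.list_cons.comp
      (b.pair ((Primrec.fst.comp Primrec.snd).pair (Primrec.fst.comp a)))
      (Primrec.snd.comp (Primrec.snd.comp a))))).to₂
  exact ((Primrec.snd.comp (Primrec.snd.comp h1)).pair
    ((Primrec.fst.comp h1).pair (Primrec.const F))).to_comp

end

/-! ### The alphabet and the counter language -/

inductive Sym (K : ℕ) : Type
  | s | t
  | g (k : Fin K) (e : Option Bool) (c : Bool)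
  | a (k : Fin K) (c : Bool)
  deriving DecidableEq, Fintype

inductive DS (K : ℕ) : Type
  | start | acc | rej
  | up (k : Fin K) (c sk : Bool)
  | down (k : Fin K) (c : Bool)
  | over (k : Fin K) (c : Bool)
  deriving DecidableEq, Fintype

variable {K : ℕ}

def dn (k : Fin K) (c : Bool) (l : Sym K) (z : Bool) : DS K × Option Bool :=
  if l = .a k (!c) then (if z then (.over k c, none) else (.down k c, some false))
  else if l = .t ∧ z = false then (.acc, none) else (.rej, none)

def dl : DS K → Sym K → Bool → DS K × Option Bool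
  | .start, .g k e c, _ => (.up k c (e = some false), if e = some true then some true else none)
  | .up k c sk, l, z =>
      if l = .a k c then (.up k c false, if sk then none else some true) else dn k c l z
  | .down k c, l, z => dn k c l z
  | .over k c, l, _ =>
      if l = .a k (!c) then (.over k c, none) else if l = .t then (.acc, none) else (.rej, none)
  | _, _, _ => (.rej, none)

def M2 (K : ℕ) : DCM (Sym K) where
  Q := DS K
  fin := inferInstance
  start := .start
  accept := {.acc}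
  δ := dl
  nodec q l := by
    cases q <;> cases l <;> simp only [dl, dn] <;> (try split_ifs) <;> simp_all

def late : DS K → Prop
  | .start => False
  | .up _ _ _ => False
  | _ => True

lemma late_step (q : DS K) (l z) (h : late q) : late (dl q l z).1 ∧ (dl q l z).2 ≠ some true := by
  cases q <;> cases l <;> simp only [dl, dn] <;> (try split_ifs) <;> simp_all [late]

lemma late_dec (q : DS K) (l z) (h : (dl q l z).2 = some false) : late (dl q l z).1 := by
  revert h
  cases q <;> cases l <;> simp only [dl, dn] <;> (try split_ifs) <;> simp_all [late]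

lemma oneRev : (M2 K).OneReversal := by
  intro w₁ l w₂ l' h
  have : ∀ (w : List (Sym K)) (c : DS K × ℕ), late c.1 → late (w.foldl (M2 K).step c).1 := by
    intro w
    induction w with
    | nil => exact fun _ h => h
    | cons x w ih => exact fun c h => ih _ (late_step _ _ _ h).1
  refine (late_step _ _ _ ?_).2
  unfold DCM.run
  rw [List.foldl_append, List.foldl_cons]
  exact this _ _ (late_dec _ _ _ h)

def Ac (q : DS K) (n : ℕ) (w : List (Sym K)) : Prop := (w.foldl (M2 K).step (q, n)).1 = DS.acc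

lemma Ac_cons (q : DS K) (n l w) : Ac q n (l :: w) ↔
    Ac (dl q l (decide (n = 0))).1 (adj (dl q l (decide (n = 0))).2 n) w := Iff.rfl

lemma Ac_rej (n : ℕ) (w : List (Sym K)) : ¬ Ac .rej n w := by
  induction w generalizing n with
  | nil => intro h; cases h
  | cons l w ih => exact ih _

lemma Ac_acc (n : ℕ) (w : List (Sym K)) : Ac .acc n w ↔ w = [] := by
  cases w with
  | nil => exact ⟨fun _ => rfl, fun _ => rfl⟩
  | cons l w => exact ⟨fun h => absurd h (Ac_rej _ _), fun h => by cases h⟩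

def tl (k : Fin K) (c : Bool) (j : ℕ) : List (Sym K) := List.replicate j (.a k (!c)) ++ [.t]

lemma tl_cons {k : Fin K} {c : Bool} {j : ℕ} {l : Sym K} {w} : l :: w = tl k c j ↔
    (j = 0 ∧ l = .t ∧ w = []) ∨ ∃ j', j = j' + 1 ∧ l = .a k (!c) ∧ w = tl k c j' := by
  cases j <;> simp [tl, List.replicate_succ]

lemma Ac_over (k : Fin K) (c : Bool) (n : ℕ) (w : List (Sym K)) :
    Ac (.over k c) n w ↔ ∃ j, w = tl k c j := by
  induction w with
  | nil => exact ⟨fun h => (by cases h), fun ⟨j, h⟩ => by simp [tl] at h⟩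
  | cons l w ih =>
    rw [Ac_cons]
    simp only [dl, tl_cons]
    split_ifs with h1 h2
    · subst h1
      simp only [adj, ih]
      constructor
      · rintro ⟨j, h⟩; exact ⟨j + 1, Or.inr ⟨j, rfl, by simp, h⟩⟩
      · rintro ⟨j, h | ⟨j', -, -, h⟩⟩
        · simp at h
        · exact ⟨j', h⟩
    · subst h2; simp [Ac_acc]
    · simp [Ac_rej, h1, h2]

lemma Ac_down (k : Fin K) (c : Bool) (n : ℕ) (w : List (Sym K)) :
    Ac (.down k c) n w ↔ ∃ j, w = tl k c j ∧ j ≠ n := by
  induction w generalizing n with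
  | nil => exact ⟨fun h => (by cases h), fun ⟨j, h, _⟩ => by simp [tl] at h⟩
  | cons l w ih =>
    rw [Ac_cons]
    simp only [dl, dn, tl_cons]
    split_ifs with h1 h2 h3
    · subst h1
      simp only [decide_eq_true_eq] at h2
      simp only [adj, Ac_over]
      constructor
      · rintro ⟨j, h⟩; exact ⟨j + 1, Or.inr ⟨j, rfl, by simp, h⟩, by omega⟩
      · rintro ⟨j, h | ⟨j', -, -, h⟩, -⟩
        · simp at h
        · exact ⟨j', h⟩
    · subst h1
      simp only [decide_eq_true_eq] at h2
      simp only [adj, ih]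
      constructor
      · rintro ⟨j, h, h'⟩; exact ⟨j + 1, Or.inr ⟨j, rfl, by simp, h⟩, by omega⟩
      · rintro ⟨j, h | ⟨j', e, -, h⟩, h'⟩
        · simp at h
        · exact ⟨j', h, by omega⟩
    · obtain ⟨rfl, h3⟩ := h3
      simp only [decide_eq_false_iff_not] at h3
      simp [Ac_acc]
      exact fun _ => Ne.symm h3
    · simp only [Ac_rej, false_iff]
      rintro ⟨j, ⟨rfl, rfl, -⟩ | ⟨_, -, h, -⟩, h'⟩
      · exact h3 ⟨rfl, by simpa using Ne.symm h'⟩
      · exact h1 h

lemma Ac_up (k : Fin K) (c sk : Bool) (n : ℕ) (w : List (Sym K)) :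
    Ac (.up k c sk) n w ↔ ∃ i j, w = List.replicate i (.a k c) ++ tl k c j ∧
      j ≠ n + (i - if sk then 1 else 0) := by
  induction w generalizing n sk with
  | nil => exact ⟨fun h => (by cases h), fun ⟨i, j, h, _⟩ => by simp [tl] at h⟩
  | cons l w ih =>
    by_cases h1 : l = .a k c
    · subst h1
      rw [Ac_cons]
      simp only [dl, if_true, ih]
      constructor
      · rintro ⟨i, j, h, h'⟩
        refine ⟨i + 1, j, by rw [h]; rfl, ?_⟩
        cases sk <;> simp [adj] at h' ⊢ <;> omega
      · rintro ⟨_ | i, j, h, h'⟩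
        · simp [tl_cons] at h
        · refine ⟨i, j, (List.cons.inj h).2, ?_⟩
          cases sk <;> simp [adj] at h' ⊢ <;> omega
    · have : Ac (.up k c sk) n (l :: w) ↔ Ac (.down k c) n (l :: w) := by
        rw [Ac_cons, Ac_cons]; simp only [dl, h1, if_false]
      rw [this, Ac_down]
      constructor
      · rintro ⟨j, h, h'⟩
        exact ⟨0, j, h, by simpa using h'⟩
      · rintro ⟨_ | i, j, h, h'⟩
        · exact ⟨j, h, by simpa using h'⟩
        · exact absurd (List.cons.inj h).1 h1

lemma mem_M2 (v : List (Sym K)) : v ∈ (M2 K).lang ↔ ∃ k e c i j,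
    v = .g k e c :: (List.replicate i (.a k c) ++ tl k c j) ∧ j ≠ adj e i := by
  change Ac .start 0 v ↔ _
  cases v with
  | nil => exact ⟨fun h => (by cases h), fun ⟨_, _, _, _, _, h, _⟩ => by cases h⟩
  | cons l w =>
    rw [Ac_cons]
    cases l with
    | g k e c =>
      simp only [dl, Ac_up]
      constructor
      · rintro ⟨i, j, h, h'⟩
        refine ⟨k, e, c, i, j, by rw [h], ?_⟩
        rcases e with _ | _ | _ <;> simp [adj] at h' ⊢ <;> omega
      · rintro ⟨k, e, c, i, j, h, h'⟩
        cases h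
        refine ⟨i, j, rfl, ?_⟩
        rcases e with _ | _ | _ <;> simp [adj] at h' ⊢ <;> omega
    | _ => simp [dl, Ac_rej]

/-! ### The regular language `L₁` -/

open Pool.Agent.Lib.helper21 RLG Mach While

def p1 (k : Fin K) : Sym K → Bool
  | .g k' _ _ => k' = k
  | .a k' _ => k' = k
  | _ => false

def p2 (k : Fin K) : Sym K → Bool
  | .t => true
  | .a k' _ => k' = k
  | _ => false

def L1 (K : ℕ) : Language (Sym K) := {u | ∃ k p y₁ y₂ q, u = p ++ .s :: (y₁ ++ .s :: (y₂ ++ .s :: q)) ∧
  (∀ l ∈ y₁, l ≠ .s ∧ p1 k l = false) ∧ ∀ l ∈ y₂, l ≠ .s ∧ p2 k l = false}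

inductive R1 : Bool ⊕ Bool × Fin K → List (Sym K) → Option (Bool ⊕ Bool × Fin K) → Prop
  | a0 (b l) : R1 (.inl b) [l] (some (.inl b))
  | a1 (k) : R1 (.inl false) [.s] (some (.inr (false, k)))
  | a2 (k l) : l ≠ .s ∧ p1 k l = false → R1 (.inr (false, k)) [l] (some (.inr (false, k)))
  | a3 (k) : R1 (.inr (false, k)) [.s] (some (.inr (true, k)))
  | a4 (k l) : l ≠ .s ∧ p2 k l = false → R1 (.inr (true, k)) [l] (some (.inr (true, k)))
  | a5 (k) : R1 (.inr (true, k)) [.s] (some (.inl true))
  | a6 : R1 (.inl true) [] none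

def sem1 : Bool ⊕ Bool × Fin K → List (Sym K) → Prop
  | .inl false, u => u ∈ L1 K
  | .inl true, _ => True
  | .inr (false, k), u => ∃ y₁ y₂ q, u = y₁ ++ .s :: (y₂ ++ .s :: q) ∧
      (∀ l ∈ y₁, l ≠ .s ∧ p1 k l = false) ∧ ∀ l ∈ y₂, l ≠ .s ∧ p2 k l = false
  | .inr (true, k), u => ∃ y₂ q, u = y₂ ++ .s :: q ∧ ∀ l ∈ y₂, l ≠ .s ∧ p2 k l = false

lemma L1_reg : (L1 K).IsRegular := by
  have h := regular (R1 (K := K)) 1 (fun p u o h => by cases h <;> simp) (.inl false)
  convert h using 1
  ext u
  constructor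
  · rintro ⟨k, p, y₁, y₂, q, rfl, h1, h2⟩
    refine loop (R := R1) (Gen.go (R1.a1 k) (loop (Gen.go (R1.a3 k) (loop (Gen.go (R1.a5 k) ?_) y₂
      fun l hl => R1.a4 k l (h2 l hl))) y₁ fun l hl => R1.a2 k l (h1 l hl))) p
      fun l _ => R1.a0 _ l
    simpa using loop (Gen.stop (R1.a6 (K := K))) q fun l _ => .a0 _ l
  · intro h
    have : ∀ p w, Gen R1 p w → sem1 (K := K) p w := by
      intro p w h
      induction h with
      | stop h => cases h; trivial
      | go h _ ih =>
        cases h with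
        | a0 b l =>
          cases b
          · obtain ⟨k, p, y₁, y₂, q, rfl, h⟩ := ih
            exact ⟨k, l :: p, y₁, y₂, q, rfl, h⟩
          · trivial
        | a1 k =>
          obtain ⟨y₁, y₂, q, rfl, h⟩ := ih
          exact ⟨k, [], y₁, y₂, q, rfl, h⟩
        | a2 k l hl =>
          obtain ⟨y₁, y₂, q, rfl, h1, h2⟩ := ih
          exact ⟨l :: y₁, y₂, q, rfl, List.forall_mem_cons.2 ⟨hl, h1⟩, h2⟩
        | a3 k =>
          obtain ⟨y₂, q, rfl, h⟩ := ih
          exact ⟨[], y₂, q, rfl, by simp, h⟩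
        | a4 k l hl =>
          obtain ⟨y₂, q, rfl, h2⟩ := ih
          exact ⟨l :: y₂, q, rfl, List.forall_mem_cons.2 ⟨hl, h2⟩⟩
        | a5 k => exact ⟨[], _, rfl, by simp⟩
    exact this _ _ h

/-! ### Histories -/

def ef (r : Fin K) (e : Option Bool) (k : Fin K) : Option Bool := if k = r then e else none

def hd (r : Fin K) (e : Option Bool) (c : Bool) : List (Sym K) :=
  (List.finRange K).map fun k => .g k (ef r e k) c

def body (r : Fin K) (e : Option Bool) (c : Bool) (x : List (Fin K)) : List (Sym K) :=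
  hd r e c ++ (x.map (fun k => .a k c) ++ [.t])

lemma s_body (r : Fin K) (e c x) : Sym.s ∉ body r e c x := by simp [body, hd]

lemma count_body (r : Fin K) (e c x k c') :
    (body r e c x).count (.a k c') = if c' = c then x.count k else 0 := by
  have h1 : (hd r e c).count (.a k c') = 0 := by simp [hd, List.count_eq_zero]
  have h2 : (x.map (fun k => Sym.a k c)).count (.a k c') = if c' = c then x.count k else 0 := by
    split_ifs with h
    · subst h
      exact List.count_map_of_injective x (fun k => Sym.a k c') (fun a b h => by cases h; rfl) k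
    · simp only [List.count_eq_zero, List.mem_map, not_exists, not_and]
      intro _ _ e
      cases e
      exact h rfl
  simp [body, h1, h2]

lemma filter_a (k : Fin K) (c : Bool) (x : List (Fin K)) (p : Sym K → Bool)
    (hp : ∀ k', p (.a k' c) = decide (k' = k)) :
    (x.map fun k => Sym.a k c).filter p = List.replicate (x.count k) (.a k c) := by
  induction x with
  | nil => rfl
  | cons y x ih =>
    by_cases h : y = k
    · subst h; simp [hp, ih, List.replicate_succ]
    · simp [hp, ih, h]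

lemma filter1 (r : Fin K) (e c x k) : (body r e c x).filter (p1 k) =
    .g k (ef r e k) c :: List.replicate (x.count k) (.a k c) := by
  have h1 : (hd r e c).filter (p1 k) = [.g k (ef r e k) c] := by
    rw [hd, List.filter_map]
    have : (List.finRange K).filter (p1 k ∘ fun k => .g k (ef r e k) c) = [k] := by
      have := List.filter_eq (l := List.finRange K) k
      rw [List.count_eq_one_of_mem (List.nodup_finRange K) (List.mem_finRange k)] at this
      exact this
    rw [this]; rfl
  rw [body, List.filter_append, List.filter_append, h1, filter_a k c x _ fun _ => rfl]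
  simp [p1]

lemma filter2 (r : Fin K) (e c x k) : (body r e (!c) x).filter (p2 k) = tl k c (x.count k) := by
  have h1 : (hd r e (!c)).filter (p2 k) = [] := by simp [hd, p2]
  rw [body, List.filter_append, List.filter_append, h1, filter_a k _ x _ fun _ => rfl]
  simp [p2, tl]

lemma mismatch (z w : List (Sym K)) (r e c x r' e' x' k)
    (h : x'.count k ≠ adj (ef r e k) (x.count k)) :
    z ++ .s :: (body r e c x ++ .s :: (body r' e' (!c) x' ++ .s :: w)) ∈
      shuffle (L1 K) (M2 K).lang := by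
  refine ⟨_, ⟨k, z, (body r e c x).filter fun l => !p1 k l,
    (body r' e' (!c) x').filter fun l => !p2 k l, w, rfl, fun l hl => ?_, fun l hl => ?_⟩,
    _, (mem_M2 _).2 ⟨k, _, c, _, _, rfl, h⟩, ?_⟩
  · rw [List.mem_filter] at hl
    exact ⟨fun e => s_body _ _ _ _ (e ▸ hl.1), by simpa using hl.2⟩
  · rw [List.mem_filter] at hl
    exact ⟨fun e => s_body _ _ _ _ (e ▸ hl.1), by simpa using hl.2⟩
  · have := (Sh.refl z).append (.left .s ((Sh.filter (p1 k) (body r e c x)).append (.left .s
      ((Sh.filter (p2 k) (body r' e' (!c) x')).append (.refl (.s :: w))))))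
    rw [filter1, filter2] at this
    simpa using this

def Good (b b' : List (Sym K)) : Prop := ∃ r e c x r' e' x', b = body r e c x ∧
  b' = body r' e' (!c) x' ∧ ∀ k, x'.count k = adj (ef r e k) (x.count k)

def flat (bs : List (List (Sym K))) : List (Sym K) := bs.flatMap (.s :: ·) ++ [.s]

lemma split_flat (bs : List (List (Sym K))) (h : ∀ b ∈ bs, Sym.s ∉ b) (y : List (Sym K))
    (hy : Sym.s ∉ y) : (y ++ flat bs).splitOnP (· = .s) = y :: (bs ++ [[]]) := by
  have hy' : ∀ y : List (Sym K), Sym.s ∉ y → ∀ l ∈ y, decide (l = .s) = false :=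
    fun y hy l hl => by simpa using fun e : l = .s => hy (e ▸ hl)
  induction bs generalizing y with
  | nil =>
    exact List.splitOnP_append_cons_of_forall_mem (hy' y hy) _ (by simp) _
  | cons b bs ih =>
    have : flat (b :: bs) = .s :: (b ++ flat bs) := by simp [flat]
    rw [this, List.splitOnP_append_cons_of_forall_mem (hy' y hy) _ (by simp),
      ih (fun b hb => h b (List.mem_cons_of_mem _ hb)) b (h b List.mem_cons_self)]
    rfl

lemma sound (bs : List (List (Sym K))) (h : ∀ b ∈ bs, Sym.s ∉ b) (hc : bs.IsChain Good) :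
    flat bs ∉ shuffle (L1 K) (M2 K).lang := by
  rintro ⟨_, ⟨k, p, y₁, y₂, q, rfl, h1, h2⟩, v, hv, hs⟩
  obtain ⟨k', e', c', i, j, hv, hne⟩ := (mem_M2 v).1 hv
  obtain ⟨v0, v', w0, w', rfl, e0, -, hs⟩ := hs.split _ _ _ rfl
  obtain ⟨v1, v'', w1, w'', rfl, rfl, s1, hs⟩ := hs.split _ _ _ rfl
  obtain ⟨v2, v3, w2, w3, rfl, rfl, s2, -⟩ := hs.split _ _ _ rfl
  have hsv : Sym.s ∉ v0 ++ (v1 ++ (v2 ++ v3)) := by rw [hv]; simp [tl]
  simp only [List.mem_append, not_or] at hsv
  have n1 : ∀ l ∈ w1, decide (l = Sym.s) = false := fun l hl => by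
    simpa using fun e : l = .s => ((s1.mem l).1 hl).elim (fun h => (h1 l h).1 e)
      fun h => hsv.2.1 (e ▸ h)
  have n2 : ∀ l ∈ w2, decide (l = Sym.s) = false := fun l hl => by
    simpa using fun e : l = .s => ((s2.mem l).1 hl).elim (fun h => (h2 l h).1 e)
      fun h => hsv.2.2.1 (e ▸ h)
  have sp := split_flat bs h [] (by simp)
  rw [List.nil_append, e0, List.splitOnP_append_cons _ _ (by simp),
    List.splitOnP_append_cons_of_forall_mem n1 _ (by simp),
    List.splitOnP_append_cons_of_forall_mem n2 _ (by simp)] at sp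
  obtain ⟨x0, l0, e1⟩ := List.exists_cons_of_ne_nil
    (List.splitOnP_ne_nil (fun l : Sym K => decide (l = .s)) w0)
  obtain ⟨l3, x3, e3⟩ := (List.eq_nil_or_concat _).resolve_left
    (List.splitOnP_ne_nil (fun l : Sym K => decide (l = .s)) w3)
  rw [e1, e3] at sp
  have e4 : bs = l0 ++ w1 :: w2 :: l3 := by
    have := (List.cons.inj sp).2
    have h' : (l0 ++ w1 :: w2 :: l3) ++ [x3] = bs ++ [[]] := by simpa using this
    exact (List.append_inj_left' h' rfl).symm
  rw [e4] at hc
  obtain ⟨r, e, c, x, r', e'', x', rfl, rfl, hg⟩ := (List.isChain_append_cons_cons.1 hc).2.1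
  have g1 : Sym.g k (ef r e k) c ∈ v1 := by
    refine ((s1.mem _).1 ?_).resolve_left fun h => by simpa [p1] using (h1 _ h).2
    simp [body, hd]
  have g2 : Sym.t ∈ v2 := by
    refine ((s2.mem _).1 ?_).resolve_left fun h => by simpa [p2] using (h2 _ h).2
    simp [body]
  have z0 : v0 = [] := by
    cases v0 with
    | nil => rfl
    | cons l v0 =>
      have : Sym.g k (ef r e k) c ∈ v0 ++ (v1 ++ (v2 ++ v3)) := by simp [g1]
      rw [show v0 ++ (v1 ++ (v2 ++ v3)) = _ from (List.cons.inj hv).2] at this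
      simp [tl] at this
  have z3 : v3 = [] := by
    rcases List.eq_nil_or_concat v3 with h | ⟨v3, l, rfl⟩
    · exact h
    · have h' : (v0 ++ (v1 ++ (v2 ++ v3))) ++ [l] = (.g k' e' c' :: (List.replicate i (.a k' c') ++
          List.replicate j (.a k' (!c')))) ++ [.t] := by simpa [tl] using hv
      have : Sym.t ∈ v0 ++ (v1 ++ (v2 ++ v3)) := by simp [g2]
      rw [List.append_inj_left' h' rfl] at this
      simp at this
  subst z0 z3
  have g3 : Sym.g k (ef r e k) c ∈ [] ++ (v1 ++ (v2 ++ [])) := by simp [g1]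
  rw [hv] at g3
  simp [tl] at g3
  obtain ⟨rfl, rfl, rfl⟩ := g3
  have y1 : ∀ d, y₁.count (.a k d) = 0 := fun d =>
    List.count_eq_zero.2 fun h => by simpa [p1] using (h1 _ h).2
  have y2 : ∀ d, y₂.count (.a k d) = 0 := fun d =>
    List.count_eq_zero.2 fun h => by simpa [p2] using (h2 _ h).2
  have c1 := s1.count (.a k c)
  have c2 := s2.count (.a k c)
  have c3 := s1.count (.a k (!c))
  have c4 := s2.count (.a k (!c))
  have c5 := congrArg (List.count (Sym.a k c)) hv
  have c6 := congrArg (List.count (Sym.a k (!c))) hv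
  rw [count_body, y1] at c1 c3
  rw [count_body, y2] at c2 c4
  have := hg k
  simp [tl, List.count_replicate] at c1 c2 c3 c4 c5 c6
  apply hne
  rw [← c5, ← c6, ← c1, ← c2, ← c3, ← c4]
  simpa using this

section
variable {Q : Type} (M : CM Q) (ρ : Q → Fin K)

inductive R0 : Q × Bool × Option (Bool × Bool) → List (Sym K) →
    Option (Q × Bool × Option (Bool × Bool)) → Prop
  | b0 (q c b) : R0 (q, c, none) (.s :: hd (ρ q) (M.eff q b) c) (some (q, c, some (b, false)))
  | b1 (q c b sn k) : R0 (q, c, some (b, sn)) [.a k c] (some (q, c, some (b, sn || k = ρ q)))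
  | b2 (q c b q') : M.nxt q b = some q' → R0 (q, c, some (b, !b)) [.t] (some (q', !c, none))
  | b3 (q c b) : M.nxt q b = none → R0 (q, c, some (b, !b)) [.t, .s] none

inductive H : Q → Bool → List (Sym K) → Prop
  | stop {q c b x} : M.nxt q b = none → (!b) = decide (ρ q ∈ x) →
      H q c (.s :: (body (ρ q) (M.eff q b) c x ++ [.s]))
  | go {q c b x q' w} : M.nxt q b = some q' → (!b) = decide (ρ q ∈ x) → H q' (!c) w →
      H q c (.s :: (body (ρ q) (M.eff q b) c x ++ w))

def sem0 : Q × Bool × Option (Bool × Bool) → List (Sym K) → Prop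
  | (q, c, none), w => H M ρ q c w
  | (q, c, some (b, sn)), w => ∃ x : List (Fin K), ∃ w', w = x.map (fun k => .a k c) ++ .t :: w' ∧
      (!b) = (sn || decide (ρ q ∈ x)) ∧
      ((M.nxt q b = none ∧ w' = [.s]) ∨ ∃ q', M.nxt q b = some q' ∧ H M ρ q' (!c) w')

lemma gen_sem (p w) (h : Gen (R0 M ρ) p w) : sem0 M ρ p w := by
  induction h with
  | stop h =>
    cases h with
    | b3 q c b h => exact ⟨[], [.s], rfl, by simp, Or.inl ⟨h, rfl⟩⟩
  | go h _ ih =>
    cases h with
    | b0 q c b =>
      obtain ⟨x, w', rfl, h1, ⟨h2, rfl⟩ | ⟨q', h2, h3⟩⟩ := ih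
      · simpa [body, sem0] using H.stop (c := c) h2 h1
      · simpa [body, sem0] using H.go (c := c) h2 h1 h3
    | b1 q c b sn k =>
      obtain ⟨x, w', rfl, h1, h2⟩ := ih
      exact ⟨k :: x, w', rfl, by simp [h1, Bool.or_assoc, eq_comm], h2⟩
    | b2 q c b q' h => exact ⟨[], _, rfl, by simp, Or.inr ⟨q', h, ih⟩⟩

lemma gen_x (q c b) (x : List (Fin K)) (w) : ∀ sn, Gen (R0 M ρ)
    (q, c, some (b, sn || decide (ρ q ∈ x))) w →
    Gen (R0 M ρ) (q, c, some (b, sn)) (x.map (fun k => .a k c) ++ w) := by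
  induction x with
  | nil => intro sn h; simpa using h
  | cons k x ih =>
    intro sn h
    refine Gen.go (u := [.a k c]) (w := x.map (fun k => .a k c) ++ w) (.b1 q c b sn k) (ih _ ?_)
    simpa [Bool.or_assoc, eq_comm] using h

lemma h_gen {q c w} (h : H M ρ q c w) : Gen (R0 M ρ) (q, c, none) w := by
  induction h with
  | @stop q c b x h1 h2 =>
    have := Gen.go (.b0 q c b) (gen_x M ρ q c b x _ false
      (by rw [Bool.false_or, ← h2]; exact .stop (.b3 q c b h1)))
    simpa [body] using this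
  | @go q c b x q' w h1 h2 _ ih =>
    have := Gen.go (.b0 q c b) (gen_x M ρ q c b x _ false
      (by rw [Bool.false_or, ← h2]; exact .go (.b2 q c b q' h1) ih))
    simpa [body] using this

lemma H_reg [Finite Q] (q c) : Language.IsRegular {w | H M ρ q c w} := by
  have h := regular (R0 M ρ) (K + 2) (fun p u o h => by cases h <;> simp [hd]) (q, c, none)
  convert h using 2
  ext w
  exact ⟨h_gen M ρ, gen_sem M ρ _ _⟩

variable (hρ : ∀ q, (ρ q).val = M.reg q)
include hρ

lemma app_eq (q : Q) (e) (st : St) (k : Fin K) :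
    app e (M.reg q) st k = adj (ef (ρ q) e k) (st k) := by
  rw [← hρ]
  by_cases h : k = ρ q
  · subst h
    rcases e with _ | _ | _ <;> simp [app, adj, ef]
  · have : (k : ℕ) ≠ (ρ q : ℕ) := fun e => h (Fin.ext e)
    rcases e with _ | _ | _ <;> simp [app, adj, ef, h, this]

lemma tst_eq (q : Q) (st : St) (x : List (Fin K)) (hx : ∀ k, x.count k = st k) :
    (!M.tst 0 (q, st)) = decide (ρ q ∈ x) := by
  have := hx (ρ q)
  rw [hρ] at this
  simp only [CM.tst, CM.thr, ite_self, ← this, Nat.le_zero, List.count_eq_zero]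
  simp

lemma complete {q c w} (h : H M ρ q c w) : ∀ (st : St) z r e x,
    (∀ k : Fin K, st k = adj (ef r e k) (List.count k x)) →
    z ++ .s :: (body r e (!c) x ++ w) ∉ shuffle (L1 K) (M2 K).lang →
    Halts (M.step 0) (q, st) := by
  induction h with
  | @stop q c b x' h1 h2 =>
    intro st z r e x hst hn
    have hx : ∀ k, x'.count k = st k := fun k => by_contra fun hk => hn (by
      simpa using mismatch z [] r e (!c) x (ρ q) (M.eff q b) x' k (hst k ▸ hk))
    have := (tst_eq M ρ hρ q st x' hx).trans h2.symm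
    refine .stop ?_
    simp only [CM.step, Bool.not_inj this, h1, Option.map_none]
  | @go q c b x' q' w h1 h2 h3 ih =>
    intro st z r e x hst hn
    obtain ⟨w', rfl⟩ : ∃ w', w = .s :: w' := by cases h3 <;> exact ⟨_, rfl⟩
    have hx : ∀ k, x'.count k = st k := fun k => by_contra fun hk => hn (by
      simpa using mismatch z w' r e (!c) x (ρ q) (M.eff q b) x' k (hst k ▸ hk))
    have := (tst_eq M ρ hρ q st x' hx).trans h2.symm
    refine .go (c' := (q', app (M.eff q b) (M.reg q) st)) ?_ (ih _ (z ++ .s :: body r e (!c) x)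
      (ρ q) (M.eff q b) x' (fun k => by rw [app_eq M ρ hρ, hx]) (by simpa using hn))
    simp only [CM.step, Bool.not_inj this, h1, Option.map_some]

lemma valid {cf : Q × St} (h : Halts (M.step 0) cf) : ∀ c r e x,
    (∀ k : Fin K, cf.2 k = adj (ef r e k) (List.count k x)) →
    ∃ bs, H M ρ cf.1 (!c) (flat bs) ∧ (∀ b ∈ bs, Sym.s ∉ b) ∧
      (body r e c x :: bs).IsChain Good := by
  have ex : ∀ st : St, ∃ x : List (Fin K), ∀ k, x.count k = st k := fun st =>
    ⟨(Finsupp.toMultiset (Finsupp.equivFunOnFinite.symm fun k : Fin K => st k)).toList, fun k => by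
      rw [← Multiset.coe_count, Multiset.coe_toList, Finsupp.count_toMultiset]; rfl⟩
  induction h with
  | @stop cf h =>
    intro c r e x hst
    obtain ⟨q, st⟩ := cf
    obtain ⟨x', hx⟩ := ex st
    refine ⟨[body (ρ q) (M.eff q (M.tst 0 (q, st))) (!c) x'], ?_, by simp [s_body], ?_⟩
    · simpa [flat] using H.stop (c := !c) (Option.map_eq_none_iff.1 h) (tst_eq M ρ hρ q st x' hx)
    · exact List.isChain_pair.2 ⟨r, e, c, x, _, _, x', rfl, rfl, fun k => (hx k).trans (hst k)⟩
  | @go cf cf' h _ ih =>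
    intro c r e x hst
    obtain ⟨q, st⟩ := cf
    obtain ⟨x', hx⟩ := ex st
    obtain ⟨q', h1, rfl⟩ := Option.map_eq_some_iff.1 h
    obtain ⟨bs, b1, b2, b3⟩ := ih (!c) (ρ q) (M.eff q (M.tst 0 (q, st))) x'
      fun k => by rw [hx]; exact app_eq M ρ hρ q _ st k
    refine ⟨body (ρ q) (M.eff q (M.tst 0 (q, st))) (!c) x' :: bs, ?_,
      List.forall_mem_cons.2 ⟨s_body _ _ _ _, b2⟩, List.isChain_cons_cons.2
        ⟨⟨r, e, c, x, _, _, x', rfl, rfl, fun k => (hx k).trans (hst k)⟩, b3⟩⟩
    simpa [flat] using H.go (c := !c) h1 (tst_eq M ρ hρ q st x' hx) b1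

end

/-- There are a finite alphabet, a regular language `L₁` and a deterministic one-reversal
one-counter machine `M` such that it is undecidable whether the language of a given finite
automaton is contained in the shuffle of `L₁` and `L(M)`. -/
theorem result : ∃ (A : Type) (_ : Finite A) (_ : Primcodable A) (L₁ : Language A) (M : DCM A),
    L₁.IsRegular ∧ M.OneReversal ∧
      ¬ ComputablePred fun N : Code A => N.lang ≤ shuffle L₁ M.lang := by
  obtain ⟨Q, _, M, q₀, hM⟩ := Queue.exists_cm0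
  obtain ⟨K, hK⟩ := (Set.finite_range M.reg).bddAbove
  let ρ : Q → Fin (K + 1) := fun q => ⟨M.reg q, Nat.lt_succ_of_le (hK ⟨q, rfl⟩)⟩
  let pc : Primcodable (Sym (K + 1)) := Primcodable.ofEquiv _ (Fintype.equivFin _)
  refine ⟨Sym (K + 1), inferInstance, pc, L1 _, M2 _, L1_reg, oneRev, fun h => hM ?_⟩
  have hp : Primrec fun n : ℕ => Sym.s :: body (0 : Fin (K + 1)) none true (List.replicate n 0) := by
    have h1 : Primrec fun n : ℕ => (List.range n).map fun _ => Sym.a (0 : Fin (K + 1)) true :=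
      Primrec.list_map Primrec.list_range (Primrec.const _).to₂
    refine (Primrec.list_cons.comp (Primrec.const Sym.s) (Primrec.list_append.comp
      (Primrec.const (hd 0 none true)) (Primrec.list_append.comp h1
        (Primrec.const [Sym.t])))).of_eq fun n => ?_
    simp [body]
  obtain ⟨N, hN, hL⟩ := code_family (H_reg M ρ q₀ false) hp
  have hst : ∀ n (k : Fin (K + 1)), init n k = adj (ef 0 none k)
      (List.count k (List.replicate n 0)) := by
    intro n k
    by_cases h : k = 0
    · subst h; simp [init, ef, adj]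
    · have : (k : ℕ) ≠ 0 := fun e => h (Fin.ext e)
      simp [init, ef, adj, List.count_replicate, this, Ne.symm h]
  refine (CPred.ccomp h hN).not.of_eq fun n => ⟨fun hn => ?_, fun hn hle => ?_⟩
  · obtain ⟨w, h1, h2⟩ := Set.not_subset.1 hn
    obtain ⟨w', h3, rfl⟩ := (hL n w).1 h1
    exact complete M ρ (fun _ => rfl) h3 _ [] 0 none _ (hst n) h2
  · obtain ⟨bs, b1, b2, b3⟩ := valid M ρ (fun _ => rfl) hn true 0 none _ (hst n)
    refine sound _ (List.forall_mem_cons.2 ⟨s_body _ _ _ _, b2⟩) b3 (hle ((hL n _).2 ⟨_, b1, ?_⟩))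
    simp [flat]

end Pool.Agent.Results.MP_732884_lc.Undec
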